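import Mathlib
import Pool.Agent.Helper78.RamseyRandom

open Finset Filter Topology

namespace Pool.Agent.Helper95.RamDich

open Pool.Agent.Helper78.Ramsey

variable {V : Type} [DecidableEq V] {G : SimpleGraph V} [DecidableRel G.Adj] {lam D : ℝ}

/-- the weights of the potential: `1/X + 1/Y = 1` -/
structure Wts (X Y : ℝ) : Prop where
  one_lt : 1 < X
  le : X ≤ Y
  sum : X + Y = X * Y

lemma Wts.one_lt' {X Y : ℝ} (h : Wts X Y) : 1 < Y := lt_of_lt_of_le h.one_lt h.le

lemma Wts.inv_sum {X Y : ℝ} (h : Wts X Y) : 1 / Y + 1 / X = 1 := by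
  have hX := h.one_lt
  have hY := h.one_lt'
  have hX0 : X ≠ 0 := by linarith
  have hY0 : Y ≠ 0 := by linarith
  rw [div_add_div _ _ hY0 hX0, div_eq_one_iff_eq (mul_ne_zero hY0 hX0)]
  linarith [h.sum, mul_comm X Y]

lemma choose_le {X Y : ℝ} (h : Wts X Y) (a b : ℕ) : ((a + b).choose a : ℝ) ≤ Y ^ a * X ^ b := by
  have hX : 0 < X := by linarith [h.one_lt]
  have hY : 0 < Y := by linarith [h.one_lt']
  have h1 : ((1 : ℝ) / Y + 1 / X) ^ (a + b) = 1 := by rw [h.inv_sum, one_pow]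
  rw [add_pow] at h1
  have h2 : ((1 : ℝ) / Y) ^ a * (1 / X) ^ (a + b - a) * ((a + b).choose a : ℝ) ≤ 1 := by
    refine le_trans ?_ h1.le
    exact Finset.single_le_sum (f := fun m => ((1 : ℝ) / Y) ^ m * (1 / X) ^ (a + b - m) *
      ((a + b).choose m : ℝ)) (fun m _ => by positivity)
      (Finset.mem_range.mpr (show a < a + b + 1 by omega))
  rw [Nat.add_sub_cancel_left] at h2
  have h3 : ((1 : ℝ) / Y) ^ a * (1 / X) ^ b * (Y ^ a * X ^ b) = 1 := by
    rw [mul_mul_mul_comm, ← mul_pow, ← mul_pow, one_div_mul_cancel hY.ne',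
      one_div_mul_cancel hX.ne', one_pow, one_pow, one_mul]
  have h4 : (0 : ℝ) < ((1 : ℝ) / Y) ^ a * (1 / X) ^ b := by positivity
  by_contra hcon
  push Not at hcon
  have h5 := mul_lt_mul_of_pos_left hcon h4
  rw [h3] at h5
  linarith

/-- the potential of the unbalanced exits -/
noncomputable def Phi (X Y : ℝ) (w0 kp astar a b : ℕ) : ℝ :=
  (w0 : ℝ) * (X ^ a * Y ^ b + X ^ b * Y ^ a) / (X ^ astar * Y ^ kp)

lemma Phi_comm (X Y : ℝ) (w0 kp astar a b : ℕ) :
    Phi X Y w0 kp astar a b = Phi X Y w0 kp astar b a := by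
  unfold Phi
  ring

lemma Phi_rec {X Y : ℝ} (h : Wts X Y) (w0 kp astar a b : ℕ) :
    Phi X Y w0 kp astar a (b + 1) + Phi X Y w0 kp astar (a + 1) b =
      Phi X Y w0 kp astar (a + 1) (b + 1) := by
  unfold Phi
  rw [← add_div]
  congr 1
  simp only [pow_succ]
  have hs := h.sum
  have e1 : (w0 : ℝ) * (X ^ a * (Y ^ b * Y) + X ^ b * X * Y ^ a) +
      w0 * (X ^ a * X * Y ^ b + X ^ b * (Y ^ a * Y)) =
      w0 * ((X ^ a * Y ^ b + X ^ b * Y ^ a) * (X + Y)) := by ring
  rw [e1, hs]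
  ring

lemma Phi_ge_left {X Y : ℝ} (h : Wts X Y) (w0 kp astar a b : ℕ) :
    (w0 : ℝ) * (X ^ a * Y ^ b) / (X ^ astar * Y ^ kp) ≤ Phi X Y w0 kp astar a b := by
  have hX : 0 < X := by linarith [h.one_lt]
  have hY : 0 < Y := by linarith [h.one_lt']
  unfold Phi
  apply div_le_div_of_nonneg_right _ (by positivity)
  apply mul_le_mul_of_nonneg_left _ (by positivity)
  have : (0 : ℝ) ≤ X ^ b * Y ^ a := by positivity
  linarith

/-- on the boundary of the square, `b = kp` -/
lemma claimC_aux {X Y : ℝ} (h : Wts X Y) (hG : NearComplete G lam D) (hlam : 0 ≤ lam) (hD : 1 ≤ D)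
    (th : ℝ) (hth1 : 1 ≤ th)
    (hth : th * (1 - lam) = 1) (c : Sym2 V → Bool) (w0 L kp astar : ℕ) (hw0D : D ≤ w0)
    (hL : (L : ℝ) * (lam * w0 + D) ≤ w0) (hkp : Forces (⊤ : SimpleGraph (Fin L)) kp)
    (hastar : astar = 0 ∨ D * (Y ^ astar * X ^ kp) ≤ w0)
    (a b : ℕ) (hsq : (a ≤ kp ∧ b = kp) ∨ (a = kp ∧ b ≤ kp)) (W : Finset V)
    (hW : th ^ (a + b) * (2 * Phi X Y w0 kp astar a b - D) ≤ (W.card : ℝ)) :
    HasMono G c W a true ∨ HasMono G c W b false := by
  have hX1 := h.one_lt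
  have hY1 := h.one_lt'
  have hX : 0 < X := by linarith
  have hY : 0 < Y := by linarith
  have hth0 : 0 < th := by linarith
  -- the smaller coordinate
  obtain ⟨s, hs, hPhi, hch⟩ : ∃ s : ℕ, s ≤ kp ∧
      (w0 : ℝ) * (X ^ s * Y ^ kp) / (X ^ astar * Y ^ kp) ≤ Phi X Y w0 kp astar a b ∧
      ((a + b).choose a : ℝ) ≤ Y ^ s * X ^ kp := by
    rcases hsq with ⟨h1, rfl⟩ | ⟨rfl, h2⟩
    · exact ⟨a, h1, Phi_ge_left h _ _ _ _ _, choose_le h a b⟩
    · refine ⟨b, h2, ?_, ?_⟩
      · rw [Phi_comm]; exact Phi_ge_left h _ _ _ _ _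
      · have h3 := choose_le h b a
        rw [add_comm b a] at h3
        rwa [← Nat.choose_symm_add] at h3
  have hab : a ≤ kp ∧ b ≤ kp := by
    rcases hsq with ⟨h1, rfl⟩ | ⟨rfl, h2⟩
    · exact ⟨h1, le_rfl⟩
    · exact ⟨le_rfl, h2⟩
  have hsimp : (w0 : ℝ) * (X ^ s * Y ^ kp) / (X ^ astar * Y ^ kp) =
      (w0 : ℝ) * (X ^ s / X ^ astar) := by
    field_simp
  rw [hsimp] at hPhi
  rcases le_or_gt astar s with hcase | hcase
  · -- large cliques
    have h1 : (1 : ℝ) ≤ X ^ s / X ^ astar := by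
      rw [le_div_iff₀ (by positivity), one_mul]
      exact pow_le_pow_right₀ hX1.le hcase
    have h2 : (w0 : ℝ) ≤ Phi X Y w0 kp astar a b := by
      have : (0 : ℝ) ≤ w0 := by positivity
      nlinarith
    have h3 : (w0 : ℝ) ≤ (W.card : ℝ) := by
      have h4 : (1 : ℝ) ≤ th ^ (a + b) := one_le_pow₀ hth1
      have h5 : (w0 : ℝ) ≤ 2 * Phi X Y w0 kp astar a b - D := by linarith
      have h6 : (0 : ℝ) ≤ w0 := by positivity
      nlinarith
    obtain ⟨Q, hQ, hQc⟩ := exists_clique hG hlam hD w0 L hL W (by exact_mod_cast h3)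
    obtain ⟨col, hcol⟩ := hasMono_of_clique c hkp hQc hQ
    cases col
    · exact Or.inr (hcol.le hab.2)
    · exact Or.inl (hcol.le hab.1)
  · -- binomial region
    have hastar : D * (Y ^ astar * X ^ kp) ≤ w0 := by
      rcases hastar with h0 | h0
      · omega
      · exact h0
    refine claimA hG hD th hth1 hth c _ a b rfl W ?_
    refine le_trans ?_ hW
    apply mul_le_mul_of_nonneg_left _ (by positivity)
    have h1 : D * ((a + b).choose a : ℝ) ≤ Phi X Y w0 kp astar a b := by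
      refine le_trans ?_ hPhi
      have h2 : D * ((a + b).choose a : ℝ) ≤ D * (Y ^ s * X ^ kp) :=
        mul_le_mul_of_nonneg_left hch (by linarith)
      refine h2.trans ?_
      rw [← mul_div_assoc, le_div_iff₀ (by positivity)]
      obtain ⟨t, rfl⟩ : ∃ t, astar = s + t := ⟨astar - s, by omega⟩
      have h3 : D * (Y ^ s * X ^ kp) * X ^ (s + t) ≤
          D * (Y ^ (s + t) * X ^ kp) * X ^ s := by
        have h4 : X ^ t ≤ Y ^ t := pow_le_pow_left₀ hX.le h.le t
        have h5 : D * (Y ^ s * X ^ kp) * X ^ (s + t) =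
          (D * Y ^ s * X ^ kp * X ^ s) * X ^ t := by rw [pow_add]; ring
        have h6 : D * (Y ^ (s + t) * X ^ kp) * X ^ s =
          (D * Y ^ s * X ^ kp * X ^ s) * Y ^ t := by rw [pow_add]; ring
        rw [h5, h6]
        exact mul_le_mul_of_nonneg_left h4 (by positivity)
      refine h3.trans ?_
      exact mul_le_mul_of_nonneg_right hastar (by positivity)
    linarith

/-- outside the square -/
lemma claimB {X Y : ℝ} (h : Wts X Y) (hG : NearComplete G lam D) (hlam : 0 ≤ lam) (hD : 1 ≤ D)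
    (th : ℝ) (hth1 : 1 ≤ th)
    (hth : th * (1 - lam) = 1) (c : Sym2 V → Bool) (w0 L kp astar : ℕ) (hw0D : D ≤ w0)
    (hL : (L : ℝ) * (lam * w0 + D) ≤ w0) (hkp : Forces (⊤ : SimpleGraph (Fin L)) kp)
    (hastar : astar = 0 ∨ D * (Y ^ astar * X ^ kp) ≤ w0) :
    ∀ (n a b : ℕ), a + b = n → (kp < a ∨ kp < b) → ∀ W : Finset V,
      th ^ (a + b) * (2 * Phi X Y w0 kp astar a b - D) ≤ (W.card : ℝ) →
      HasMono G c W a true ∨ HasMono G c W b false := by
  have hX1 := h.one_lt
  have hY1 := h.one_lt'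
  have hX : 0 < X := by linarith
  have hY : 0 < Y := by linarith
  have hth0 : 0 < th := by linarith
  have hlam' : 0 ≤ 1 - lam := by
    by_contra hneg
    push Not at hneg
    nlinarith
  have hDX : D * X ^ astar ≤ w0 := by
    rcases hastar with h0 | h0
    · rw [h0, pow_zero, mul_one]; exact hw0D
    · refine le_trans ?_ h0
      apply mul_le_mul_of_nonneg_left _ (by linarith)
      have h4 : X ^ astar ≤ Y ^ astar := pow_le_pow_left₀ hX.le h.le _
      have h5 : (1 : ℝ) ≤ X ^ kp := one_le_pow₀ hX1.le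
      have h6 : (0 : ℝ) < Y ^ astar := by positivity
      nlinarith
  intro n
  induction n with
  | zero =>
    intro a b hab hout W _
    omega
  | succ n ih =>
    intro a b hab hout W hW
    rcases Nat.eq_zero_or_pos a with rfl | ha
    · exact Or.inl (HasMono.zero _ _ _ _)
    rcases Nat.eq_zero_or_pos b with rfl | hb
    · exact Or.inr (HasMono.zero _ _ _ _)
    obtain ⟨a, rfl⟩ : ∃ a', a = a' + 1 := ⟨a - 1, by omega⟩
    obtain ⟨b, rfl⟩ : ∃ b', b = b' + 1 := ⟨b - 1, by omega⟩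
    -- positivity of the potential
    have hPhiD : D ≤ Phi X Y w0 kp astar (a + 1) (b + 1) := by
      have key : ∀ s t : ℕ, kp ≤ t → D ≤ (w0 : ℝ) * (X ^ s * Y ^ t) / (X ^ astar * Y ^ kp) := by
        intro s t hst
        rw [le_div_iff₀ (by positivity)]
        have h1 : Y ^ kp ≤ Y ^ t := pow_le_pow_right₀ hY1.le hst
        have h2 : (1 : ℝ) ≤ X ^ s := one_le_pow₀ hX1.le
        calc D * (X ^ astar * Y ^ kp) = (D * X ^ astar) * Y ^ kp := by ring
          _ ≤ (w0 : ℝ) * Y ^ kp := mul_le_mul_of_nonneg_right hDX (by positivity)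
          _ ≤ (w0 : ℝ) * (X ^ s * Y ^ t) := by
              apply mul_le_mul_of_nonneg_left _ (by positivity)
              have h7 : (0 : ℝ) < Y ^ kp := by positivity
              nlinarith
      rcases hout with h' | h'
      · rw [Phi_comm]
        exact (key (b + 1) (a + 1) h'.le).trans (Phi_ge_left h _ _ _ _ _)
      · exact (key (a + 1) (b + 1) h'.le).trans (Phi_ge_left h _ _ _ _ _)
    have hne : W.Nonempty := by
      rw [← Finset.card_pos]
      have h1 : (0 : ℝ) < th ^ (a + 1 + (b + 1)) * (2 * Phi X Y w0 kp astar (a + 1) (b + 1) - D) := by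
        apply mul_pos (pow_pos hth0 _)
        linarith
      exact_mod_cast lt_of_lt_of_le h1 hW
    have hpow : (1 : ℝ) ≤ th ^ (a + b + 1) := one_le_pow₀ hth1
    have hrec := Phi_rec h w0 kp astar a b
    refine step_rec hG c a b W hne (th ^ (a + b + 1) * (2 * Phi X Y w0 kp astar a (b + 1) - D))
      (th ^ (a + b + 1) * (2 * Phi X Y w0 kp astar (a + 1) b - D)) ?_ ?_ ?_
    · have h2 : (1 - lam) * (th ^ (a + 1 + (b + 1)) * (2 * Phi X Y w0 kp astar (a + 1) (b + 1) - D)) ≤
          (1 - lam) * (W.card : ℝ) := mul_le_mul_of_nonneg_left hW hlam'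
      have h3 : (1 - lam) * (th ^ (a + 1 + (b + 1)) * (2 * Phi X Y w0 kp astar (a + 1) (b + 1) - D)) =
          th ^ (a + b + 1) * (2 * Phi X Y w0 kp astar (a + 1) (b + 1) - D) := by
        have : th ^ (a + 1 + (b + 1)) = th ^ (a + b + 1) * th := by rw [← pow_succ]; congr 1; ring
        rw [this]
        calc (1 - lam) * (th ^ (a + b + 1) * th * (2 * Phi X Y w0 kp astar (a + 1) (b + 1) - D))
            = (th * (1 - lam)) * (th ^ (a + b + 1) * (2 * Phi X Y w0 kp astar (a + 1) (b + 1) - D)) := by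
              ring
          _ = _ := by rw [hth, one_mul]
      rw [h3] at h2
      have h4 : D ≤ th ^ (a + b + 1) * D := by nlinarith
      rw [← hrec] at h2
      nlinarith
    · intro R hR
      have hpw : a + b + 1 = a + (b + 1) := by ring
      rw [hpw] at hR
      by_cases hout' : kp < a ∨ kp < b + 1
      · exact ih a (b + 1) (by omega) hout' R hR
      · push Not at hout'
        exact claimC_aux h hG hlam hD th hth1 hth c w0 L kp astar hw0D hL hkp hastar a (b + 1)
          (Or.inr ⟨by omega, hout'.2⟩) R hR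
    · intro R hR
      have hpw : a + b + 1 = a + 1 + b := by ring
      rw [hpw] at hR
      by_cases hout' : kp < a + 1 ∨ kp < b
      · exact ih (a + 1) b (by omega) hout' R hR
      · push Not at hout'
        exact claimC_aux h hG hlam hD th hth1 hth c w0 L kp astar hw0D hL hkp hastar (a + 1) b
          (Or.inl ⟨hout'.1, by omega⟩) R hR

/-- the combinatorial theorem -/
theorem forces_of_nearComplete {X Y : ℝ} (h : Wts X Y) [Fintype V] (hG : NearComplete G lam D)
    (hlam : 0 ≤ lam) (hD : 1 ≤ D)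
    (th : ℝ) (hth1 : 1 ≤ th) (hth : th * (1 - lam) = 1) (w0 L kp astar k : ℕ) (hw0D : D ≤ w0)
    (hL : (L : ℝ) * (lam * w0 + D) ≤ w0) (hkp : Forces (⊤ : SimpleGraph (Fin L)) kp)
    (hastar : astar = 0 ∨ D * (Y ^ astar * X ^ kp) ≤ w0) (hw0 : w0 ≤ Fintype.card V)
    (hn : th ^ (2 * k) * (4 * w0 * (X ^ k * Y ^ k) / (X ^ astar * Y ^ kp)) ≤
      (Fintype.card V : ℝ)) : Forces G k := by
  intro c
  rcases le_or_gt k kp with hk | hk
  · obtain ⟨Q, hQ, hQc⟩ := exists_clique hG hlam hD w0 L hL Finset.univ (by simpa using hw0)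
    obtain ⟨col, hcol⟩ := hasMono_of_clique c hkp hQc hQ
    obtain ⟨S, _, h1, h2⟩ := hcol.le hk
    exact ⟨S, col, h1, h2⟩
  · have h := claimB h hG hlam hD th hth1 hth c w0 L kp astar hw0D hL hkp hastar (k + k) k k rfl
      (Or.inl hk) Finset.univ (by
        rw [Finset.card_univ]
        refine le_trans ?_ hn
        rw [two_mul k]
        apply mul_le_mul_of_nonneg_left _ (pow_nonneg (by linarith) _)
        have h1 : 2 * Phi X Y w0 kp astar k k =
            4 * w0 * (X ^ k * Y ^ k) / (X ^ astar * Y ^ kp) := by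
          unfold Phi
          ring
        linarith)
    rcases h with h | h
    · obtain ⟨S, _, h1, h2⟩ := h
      exact ⟨S, true, h1, h2⟩
    · obtain ⟨S, _, h1, h2⟩ := h
      exact ⟨S, false, h1, h2⟩

end Pool.Agent.Helper95.RamDich
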