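import Mathlib
import Pool.Agent.Helper78.RamseyAsymp
import Pool.Agent.Helper95.RamDich.Comb2

open Finset Filter Topology

namespace Pool.Agent.Helper95.RamDich

open Pool.Agent.Helper78.Ramsey

lemma Wts.log_pos {X Y : ℝ} (h : Wts X Y) : 0 < Real.log X := Real.log_pos h.one_lt
lemma Wts.log_pos' {X Y : ℝ} (h : Wts X Y) : 0 < Real.log Y := Real.log_pos h.one_lt'
lemma Wts.log_le {X Y : ℝ} (h : Wts X Y) : Real.log X ≤ Real.log Y :=
  Real.log_le_log (by linarith [h.one_lt]) h.le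

/-- the key step: if no good graph exists on `n` vertices, `r` at scale `n^β` is large compared
with `r` at scale `n^ε` -/
lemma fail_ineq {X Y : ℝ} (hXY : Wts X Y) (ε β : ℝ) (hε : 0 < ε) (hε' : ε < 1) (hβ : 0 < β)
    (hβ1 : β ≤ 1)
    (hfail : ∀ᶠ n : ℕ in atTop, ¬ ∃ G : SimpleGraph (Fin n), (G.cliqueNum : ℝ) ≤ (n : ℝ) ^ ε ∧
      Forces G (r ⌊(n : ℝ) ^ β⌋₊)) :
    ∀ᶠ n : ℕ in atTop, ∃ L : ℕ, (n : ℝ) ^ ε / (276 * Real.log n) ≤ L ∧
      (1 - ε * (1 - Real.log X / Real.log Y)) * Real.log n +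
        (r L : ℝ) * (Real.log Y - Real.log X ^ 2 / Real.log Y) ≤
        (Real.log X + Real.log Y) * (r ⌊(n : ℝ) ^ β⌋₊ : ℝ) +
        (Real.log 16 + Real.log X + Real.log X / Real.log Y * Real.log (5 * Real.log n)) := by
  set LA := Real.log X with hLA
  set LB := Real.log Y with hLB
  have hA : 0 < LA := hXY.log_pos
  have hB : 0 < LB := hXY.log_pos'
  have hABle : LA ≤ LB := hXY.log_le
  have hX1 := hXY.one_lt
  have hY1 := hXY.one_lt'
  have hX0 : 0 < X := by linarith
  have hY0 : 0 < Y := by linarith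
  filter_upwards [hfail, eventually_ge_atTop 4, ev_const_le (C := 1) (c := 1) one_pos,
    ev_log_le_rpow hε (show (0 : ℝ) < 1 / 1000 by norm_num),
    ev_log_le_rpow (show 0 < ε / 2 by positivity) (show (0 : ℝ) < 1 / 100 by norm_num)] with
    n hn hn4 hlog1 hE1 hE2
  have hnpos : (0 : ℝ) < n := by exact_mod_cast (by omega : 0 < n)
  have hn1 : (1 : ℝ) ≤ n := by exact_mod_cast (by omega : 1 ≤ n)
  rw [one_mul] at hlog1
  set x := Real.log n with hx
  have hxpos : 0 < x := by linarith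
  set Y' : ℝ := (n : ℝ) ^ ε with hY
  have hYge : 1000 * x ≤ Y' := by linarith
  have hYpos : 0 < Y' := by linarith
  set M := ⌊Y'⌋₊ with hM
  have hMle : (M : ℝ) ≤ Y' := Nat.floor_le hYpos.le
  have hMge : Y' / 2 ≤ M := by
    have := Nat.lt_floor_add_one Y'
    rw [← hM] at this
    linarith
  have hMpos : (0 : ℝ) < M := by linarith
  -- q
  obtain ⟨Q, hQ1, hQ2⟩ : ∃ Q : ℕ, 4 * x * ((Q : ℝ) + 1) ≤ M ∧ (M : ℝ) ≤ 8 * x * ((Q : ℝ) + 1) := by
    have h1 : (2 : ℝ) ≤ M / (4 * x) := by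
      rw [le_div_iff₀ (by positivity)]
      linarith
    have h2 : 2 ≤ ⌊(M : ℝ) / (4 * x)⌋₊ := Nat.le_floor (by exact_mod_cast h1)
    refine ⟨⌊(M : ℝ) / (4 * x)⌋₊ - 1, ?_, ?_⟩
    · have h3 : ((⌊(M : ℝ) / (4 * x)⌋₊ - 1 : ℕ) : ℝ) + 1 = (⌊(M : ℝ) / (4 * x)⌋₊ : ℝ) := by
        rw [Nat.cast_sub (by omega)]; push_cast; ring
      rw [h3]
      have h4 := Nat.floor_le (show 0 ≤ (M : ℝ) / (4 * x) by positivity)
      rw [le_div_iff₀ (by positivity)] at h4
      linarith
    · have h3 : ((⌊(M : ℝ) / (4 * x)⌋₊ - 1 : ℕ) : ℝ) + 1 = (⌊(M : ℝ) / (4 * x)⌋₊ : ℝ) := by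
        rw [Nat.cast_sub (by omega)]; push_cast; ring
      rw [h3]
      have h4 := Nat.lt_floor_add_one ((M : ℝ) / (4 * x))
      have h5 : (M : ℝ) / (4 * x) ≤ 2 * (⌊(M : ℝ) / (4 * x)⌋₊ : ℝ) := by linarith
      rw [div_le_iff₀ (by positivity)] at h5
      linarith
  have hQpos : (0 : ℝ) < (Q : ℝ) + 1 := by positivity
  set lam : ℝ := 8 / ((Q : ℝ) + 1) with hlam
  have hlam0 : 0 < lam := by positivity
  have hlamM : lam * M ≤ 64 * x := by
    rw [hlam, div_mul_eq_mul_div, div_le_iff₀ hQpos]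
    linarith
  set D : ℝ := 4 * x + 1 with hD
  have hD1 : 1 ≤ D := by linarith
  have hD5 : D ≤ 5 * x := by linarith
  have hDM : D ≤ M := by linarith
  obtain ⟨G, hdec, hcl, hnear⟩ := exists_nearComplete n M Q hn4 hQ1
  -- L
  set L := ⌊(M : ℝ) / (69 * x)⌋₊ with hL
  have hL1 : (L : ℝ) ≤ M / (69 * x) := Nat.floor_le (by positivity)
  have hL2 : (M : ℝ) / (138 * x) ≤ L := by
    have h1 : (2 : ℝ) ≤ M / (69 * x) := by
      rw [le_div_iff₀ (by positivity)]; linarith
    have h2 := Nat.lt_floor_add_one ((M : ℝ) / (69 * x))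
    rw [← hL] at h2
    have h3 : (M : ℝ) / (138 * x) = M / (69 * x) / 2 := by
      rw [div_div]; congr 1; ring
    rw [h3]
    linarith
  have hLcond : (L : ℝ) * (lam * M + D) ≤ M := by
    have h1 : lam * M + D ≤ 69 * x := by linarith
    calc (L : ℝ) * (lam * M + D) ≤ L * (69 * x) := mul_le_mul_of_nonneg_left h1 (by positivity)
      _ ≤ M / (69 * x) * (69 * x) := mul_le_mul_of_nonneg_right hL1 (by positivity)
      _ = M := by field_simp
  have hLpos : (0 : ℝ) < L := lt_of_lt_of_le (by positivity) hL2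
  have hL1' : 1 ≤ L := by exact_mod_cast hLpos
  -- k, k'
  set k := r ⌊(n : ℝ) ^ β⌋₊ with hk
  set kp := r L with hkp
  have hkle : (k : ℝ) ≤ 3 * x + 3 := by
    have h1 : (1 : ℝ) ≤ (n : ℝ) ^ β := Real.one_le_rpow hn1 hβ.le
    have h2 : 1 ≤ ⌊(n : ℝ) ^ β⌋₊ := Nat.le_floor (by exact_mod_cast h1)
    have h3 := r_le_log _ h2
    have h4 : Real.log (⌊(n : ℝ) ^ β⌋₊ : ℝ) ≤ x := by
      apply Real.log_le_log (by exact_mod_cast h2)
      calc (⌊(n : ℝ) ^ β⌋₊ : ℝ) ≤ (n : ℝ) ^ β := Nat.floor_le (by positivity)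
        _ ≤ (n : ℝ) ^ (1 : ℝ) := Real.rpow_le_rpow_of_exponent_le hn1 hβ1
        _ = n := Real.rpow_one _
    linarith
  have hlogMle : Real.log M ≤ ε * x := by
    have h1 : Real.log M ≤ Real.log Y' := Real.log_le_log hMpos hMle
    rwa [hY, Real.log_rpow hnpos] at h1
  have hlogMge : ε * x - Real.log 2 ≤ Real.log M := by
    have h1 : Real.log (Y' / 2) ≤ Real.log M := Real.log_le_log (by positivity) hMge
    rw [Real.log_div hYpos.ne' (by norm_num), hY, Real.log_rpow hnpos] at h1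
    exact h1
  -- lam small
  have hlamY : lam * Y' ≤ 128 * x := by
    have h1 : Y' ≤ 2 * M := by linarith
    calc lam * Y' ≤ lam * (2 * M) := mul_le_mul_of_nonneg_left h1 hlam0.le
      _ = 2 * (lam * M) := by ring
      _ ≤ 128 * x := by linarith
  have hxx : 10000 * (x * x) ≤ Y' := by
    have h1 : (n : ℝ) ^ (ε / 2) * (n : ℝ) ^ (ε / 2) = Y' := by
      rw [← Real.rpow_add hnpos, hY]; congr 1; ring
    have h2 : 100 * x ≤ (n : ℝ) ^ (ε / 2) := by linarith
    rw [← h1]
    calc 10000 * (x * x) = (100 * x) * (100 * x) := by ring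
      _ ≤ (n : ℝ) ^ (ε / 2) * (n : ℝ) ^ (ε / 2) :=
        mul_le_mul h2 h2 (by positivity) (by positivity)
  obtain ⟨hklam, hlamle⟩ := aux_small hlam0 hlog1 hlamY hxx (k := (k : ℝ)) (by linarith)
  have h1lam : 0 < 1 - lam := by linarith
  set th : ℝ := 1 / (1 - lam) with hth
  have hth1 : 1 ≤ th := by
    rw [hth, le_div_iff₀ h1lam]; linarith
  have hthlam : th * (1 - lam) = 1 := by rw [hth]; field_simp
  have hthpow : th ^ (2 * k) ≤ 2 := by
    have h1 : 1 + ((2 * k : ℕ) : ℝ) * (-lam) ≤ (1 + (-lam)) ^ (2 * k) :=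
      one_add_mul_le_pow (by linarith) (2 * k)
    have h2 : (1 : ℝ) / 2 ≤ (1 - lam) ^ (2 * k) := by
      have h3 : (1 + (-lam)) ^ (2 * k) = (1 - lam) ^ (2 * k) := by ring
      rw [h3] at h1
      push_cast at h1
      linarith
    rw [hth, div_pow, one_pow, div_le_iff₀ (by positivity)]
    linarith
  -- astar
  have hDpos : 0 < D := by linarith
  set y : ℝ := (Real.log M - Real.log D - kp * LA) / LB with hy
  have hlogD : Real.log D ≤ Real.log (5 * x) := Real.log_le_log (by linarith) hD5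
  have hlogD0 : 0 ≤ Real.log D := Real.log_nonneg hD1
  set astar := ⌊y⌋₊ with hastar
  have hast2 : y - 1 ≤ astar := by
    have := Nat.lt_floor_add_one y
    rw [← hastar] at this
    linarith
  have hcondA : astar = 0 ∨ D * (Y ^ astar * X ^ kp) ≤ M := by
    rcases lt_or_ge y 0 with hy0 | hy0
    · left
      rw [hastar, Nat.floor_eq_zero]
      linarith
    · right
      have hast1 : (astar : ℝ) ≤ y := Nat.floor_le hy0
      rw [← Real.log_le_log_iff (by positivity) hMpos, Real.log_mul hDpos.ne' (by positivity),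
        Real.log_mul (by positivity) (by positivity), Real.log_pow, Real.log_pow]
      have h1 : (astar : ℝ) * LB ≤ y * LB := mul_le_mul_of_nonneg_right hast1 hB.le
      have h2 : y * LB = Real.log M - Real.log D - kp * LA := by rw [hy]; field_simp
      rw [← hLA, ← hLB]
      linarith
  refine ⟨L, ?_, ?_⟩
  · refine le_trans ?_ hL2
    have h1 : Y' / (276 * x) = Y' / 2 / (138 * x) := by
      rw [div_div]; congr 1; ring
    rw [h1]
    exact div_le_div_of_nonneg_right hMge (by positivity)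
  -- the failure inequality
  have hMn : M ≤ n := by
    have h1 : (M : ℝ) ≤ n := by
      refine hMle.trans ?_
      calc Y' = (n : ℝ) ^ ε := rfl
        _ ≤ (n : ℝ) ^ (1 : ℝ) := Real.rpow_le_rpow_of_exponent_le hn1 (by linarith)
        _ = n := Real.rpow_one _
    exact_mod_cast h1
  have hineq : (n : ℝ) < 2 * (4 * M * (X ^ k * Y ^ k) / (X ^ astar * Y ^ kp)) := by
    by_contra hcon
    push Not at hcon
    apply hn
    refine ⟨G, ?_, ?_⟩
    · refine le_trans ?_ hMle
      exact_mod_cast hcl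
    · refine forces_of_nearComplete hXY hnear hlam0.le hD1 th hth1 hthlam M L kp astar k hDM hLcond
        (forces_r L) hcondA (by simpa using hMn) ?_
      rw [Fintype.card_fin]
      refine le_trans ?_ hcon
      exact mul_le_mul_of_nonneg_right hthpow (by positivity)
  have hlogineq := Real.log_lt_log hnpos hineq
  rw [Real.log_mul (by norm_num) (by positivity), Real.log_div (by positivity) (by positivity),
    Real.log_mul (by positivity) (by positivity), Real.log_mul (by norm_num) hMpos.ne',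
    Real.log_mul (by positivity) (by positivity), Real.log_mul (by positivity) (by positivity),
    Real.log_pow, Real.log_pow, Real.log_pow, Real.log_pow] at hlogineq
  have h8 : Real.log 16 = Real.log 2 + Real.log 4 + Real.log 2 := by
    rw [← Real.log_mul (by norm_num) (by norm_num), ← Real.log_mul (by norm_num) (by norm_num)]
    norm_num
  rw [← hLA, ← hLB, ← hx] at hlogineq
  have hlog2 : 0 < Real.log 2 := Real.log_pos (by norm_num)
  have hyA : (y - 1) * LA ≤ astar * LA := mul_le_mul_of_nonneg_right hast2 hA.le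
  have hyexp : y * LA = LA / LB * Real.log M - LA / LB * Real.log D - kp * (LA ^ 2 / LB) := by
    rw [hy]; field_simp
  have hAB : 0 ≤ 1 - LA / LB := by
    rw [sub_nonneg, div_le_one hB]
    exact hABle
  have hMx : (1 - LA / LB) * Real.log M ≤ (1 - LA / LB) * (ε * x) :=
    mul_le_mul_of_nonneg_left hlogMle hAB
  have hDx : LA / LB * Real.log D ≤ LA / LB * Real.log (5 * x) :=
    mul_le_mul_of_nonneg_left hlogD (by positivity)
  rw [h8]
  linarith

end Pool.Agent.Helper95.RamDich
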