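import Mathlib
import Pool.Agent.Helper95.RamDich.Asymp2

open Finset Filter Topology

namespace Pool.Agent.Helper95.RamDich

open Pool.Agent.Helper78.Ramsey

/-- the set of `n` for which some graph on `n` vertices has clique number at most `n^ε` and forces
a monochromatic clique of size `r(⌊n^β⌋)` -/
def Good (ε β : ℝ) : Set ℕ :=
  {n : ℕ | ∃ G : SimpleGraph (Fin n), (G.cliqueNum : ℝ) ≤ (n : ℝ) ^ ε ∧
    Forces G (r ⌊(n : ℝ) ^ β⌋₊)}

lemma grow_step {X Y : ℝ} (hXY : Wts X Y) (ε β : ℝ) (hε : 0 < ε) (hε' : ε < 1) (hβ : 0 < β)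
    (hβ1 : β ≤ 1) (hfail : ¬ (Good ε β).Infinite) (b : ℝ) (hb0 : 0 ≤ b) (hb : Grow b) (γ : ℝ)
    (hγ0 : 0 ≤ γ)
    (hγ : γ * (β * (Real.log X + Real.log Y)) < (1 - ε * (1 - Real.log X / Real.log Y)) +
      b * (ε * (Real.log Y - Real.log X ^ 2 / Real.log Y))) :
    Grow γ := by
  have hfail : ∀ᶠ n : ℕ in atTop, ¬ ∃ G : SimpleGraph (Fin n), (G.cliqueNum : ℝ) ≤ (n : ℝ) ^ ε ∧
      Forces G (r ⌊(n : ℝ) ^ β⌋₊) := by
    rw [Good, ← Nat.frequently_atTop_iff_infinite, Filter.not_frequently] at hfail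
    exact hfail
  set LA := Real.log X with hLA
  set LB := Real.log Y with hLB
  have hA : 0 < LA := hXY.log_pos
  have hB : 0 < LB := hXY.log_pos'
  have hABle : LA ≤ LB := hXY.log_le
  have hc1 : 0 ≤ LB - LA ^ 2 / LB := by
    rw [sub_nonneg, div_le_iff₀ hB]
    nlinarith
  set c0 : ℝ := 1 - ε * (1 - LA / LB) with hc0
  set c1 : ℝ := LB - LA ^ 2 / LB with hc1d
  set S : ℝ := LA + LB with hS
  have hSpos : 0 < S := by positivity
  set η : ℝ := (c0 + b * (ε * c1) - γ * (β * S)) / 4 with hη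
  have hηpos : 0 < η := by
    rw [hη]; linarith
  obtain ⟨m0, hm0⟩ := eventually_atTop.mp hb
  -- growth at scale n
  have hstep : ∀ᶠ n : ℕ in atTop, (c0 + b * (ε * c1) - η) * Real.log n ≤
      S * (r ⌊(n : ℝ) ^ β⌋₊ : ℝ) := by
    have hcpos : (0 : ℝ) < 1 / (276 * ((m0 : ℝ) + 1)) := by positivity
    have hc' : 0 < η / 4 / (b * c1 + 1) := by positivity
    have hc'' : 0 < η / 4 / (LA / LB + 1) := by positivity
    filter_upwards [fail_ineq hXY ε β hε hε' hβ hβ1 hfail, ev_log_le_rpow hε hcpos,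
      ev_const_le (C := 1) (c := 1) one_pos,
      ev_loglog_le (show (0 : ℝ) < 276 by norm_num) hc',
      ev_loglog_le (show (0 : ℝ) < 5 by norm_num) hc'',
      ev_const_le (C := Real.log 16 + LA) (show 0 < η / 4 by positivity),
      eventually_ge_atTop 2] with n hn h1 h2 h3 h4 h5 h6
    rw [one_mul] at h2
    set x := Real.log n with hx
    have hxpos : 0 < x := by linarith
    have hnpos : (0 : ℝ) < n := by exact_mod_cast (by omega : 0 < n)
    obtain ⟨L, hL1, hL2⟩ := hn
    have hLm0 : (m0 : ℝ) ≤ L := by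
      refine le_trans ?_ hL1
      rw [le_div_iff₀ (by positivity)]
      have h7 : x * (276 * ((m0 : ℝ) + 1)) ≤ (n : ℝ) ^ ε := by
        have h8 := mul_le_mul_of_nonneg_right h1 (show 0 ≤ 276 * ((m0 : ℝ) + 1) by positivity)
        have h9 : 1 / (276 * ((m0 : ℝ) + 1)) * (n : ℝ) ^ ε * (276 * ((m0 : ℝ) + 1)) = (n : ℝ) ^ ε := by
          field_simp
        rwa [h9] at h8
      nlinarith
    have hrL : b * Real.log L ≤ (r L : ℝ) := hm0 L (by exact_mod_cast hLm0)
    have hlogL : ε * x - Real.log (276 * x) ≤ Real.log L := by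
      have h7 := Real.log_le_log (by positivity) hL1
      rw [Real.log_div (by positivity) (by positivity), Real.log_rpow hnpos] at h7
      exact h7
    have hrL' : b * c1 * (ε * x - Real.log (276 * x)) ≤ (r L : ℝ) * c1 := by
      calc b * c1 * (ε * x - Real.log (276 * x)) ≤ b * c1 * Real.log L :=
            mul_le_mul_of_nonneg_left hlogL (by positivity)
        _ = (b * Real.log L) * c1 := by ring
        _ ≤ (r L : ℝ) * c1 := mul_le_mul_of_nonneg_right hrL hc1
    have h7 : b * c1 * Real.log (276 * x) ≤ η / 4 * x := by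
      calc b * c1 * Real.log (276 * x) ≤ b * c1 * (η / 4 / (b * c1 + 1) * x) :=
            mul_le_mul_of_nonneg_left h3 (by positivity)
        _ = (b * c1 / (b * c1 + 1)) * (η / 4 * x) := by field_simp
        _ ≤ 1 * (η / 4 * x) := by
            apply mul_le_mul_of_nonneg_right _ (by positivity)
            rw [div_le_one (by positivity)]
            linarith
        _ = η / 4 * x := one_mul _
    have h8 : LA / LB * Real.log (5 * x) ≤ η / 4 * x := by
      calc LA / LB * Real.log (5 * x) ≤ LA / LB * (η / 4 / (LA / LB + 1) * x) :=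
            mul_le_mul_of_nonneg_left h4 (by positivity)
        _ = (LA / LB / (LA / LB + 1)) * (η / 4 * x) := by field_simp
        _ ≤ 1 * (η / 4 * x) := by
            apply mul_le_mul_of_nonneg_right _ (by positivity)
            rw [div_le_one (by positivity)]
            linarith
        _ = η / 4 * x := one_mul _
    have h9 : b * c1 * (ε * x - Real.log (276 * x)) = b * (ε * c1) * x - b * c1 * Real.log (276 * x) := by
      ring
    rw [h9] at hrL'
    have h10 : (c0 + b * (ε * c1) - η) * x = c0 * x + b * (ε * c1) * x - η * x := by ring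
    rw [h10]
    have h11 : 0 ≤ η * x := by positivity
    linarith
  obtain ⟨n0, hn0⟩ := eventually_atTop.mp hstep
  -- transfer to m
  have hK : 0 < c0 + b * (ε * c1) - η := by
    have hc0pos : 0 < c0 := by
      rw [hc0]
      have h1 : 0 < LA / LB := by positivity
      nlinarith
    have h2 : 0 ≤ b * (ε * c1) := by positivity
    have h3 : 0 ≤ γ * (β * S) := by positivity
    rw [hη]
    linarith
  set K : ℝ := c0 + b * (ε * c1) - η with hKd
  have htend : Tendsto (fun m : ℕ => ⌊(m : ℝ) ^ (1 / β)⌋₊) atTop atTop := by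
    apply tendsto_nat_floor_atTop.comp
    exact (tendsto_rpow_atTop (by positivity)).comp tendsto_natCast_atTop_atTop
  have hgap : 0 < K / β - γ * S := by
    rw [sub_pos, lt_div_iff₀ hβ, hKd]
    have : γ * S * β = γ * (β * S) := by ring
    rw [this]
    linarith
  filter_upwards [htend.eventually (eventually_ge_atTop n0),
    htend.eventually (eventually_ge_atTop 1), eventually_ge_atTop 2,
    ev_const_le (C := K * Real.log 2) hgap] with m hm1 hm2 hm3 hm4
  have hmpos : (0 : ℝ) < m := by exact_mod_cast (by omega : 0 < m)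
  set n := ⌊(m : ℝ) ^ (1 / β)⌋₊ with hn
  have hnpos : (0 : ℝ) < n := by exact_mod_cast hm2
  have hnle : (n : ℝ) ≤ (m : ℝ) ^ (1 / β) := Nat.floor_le (by positivity)
  have hfl : ⌊(n : ℝ) ^ β⌋₊ ≤ m := by
    have h1 : (n : ℝ) ^ β ≤ m := by
      calc (n : ℝ) ^ β ≤ ((m : ℝ) ^ (1 / β)) ^ β :=
            Real.rpow_le_rpow hnpos.le hnle hβ.le
        _ = m := by
            rw [← Real.rpow_mul hmpos.le, one_div, inv_mul_cancel₀ hβ.ne', Real.rpow_one]
    exact Nat.floor_le_of_le h1
  have hlogn : 1 / β * Real.log m - Real.log 2 ≤ Real.log n := by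
    have h1 : (m : ℝ) ^ (1 / β) / 2 ≤ n := by
      have h2 := Nat.lt_floor_add_one ((m : ℝ) ^ (1 / β))
      rw [← hn] at h2
      have h3 : (1 : ℝ) ≤ n := by exact_mod_cast hm2
      linarith
    have h2 := Real.log_le_log (by positivity) h1
    rw [Real.log_div (by positivity) (by norm_num), Real.log_rpow hmpos] at h2
    exact h2
  have hr : (r ⌊(n : ℝ) ^ β⌋₊ : ℝ) ≤ r m := by exact_mod_cast r_mono hfl
  have h5 := hn0 n hm1
  have h6 : K * (1 / β * Real.log m - Real.log 2) ≤ K * Real.log n :=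
    mul_le_mul_of_nonneg_left hlogn hK.le
  have h7 : S * (r ⌊(n : ℝ) ^ β⌋₊ : ℝ) ≤ S * r m := mul_le_mul_of_nonneg_left hr hSpos.le
  have h8 : γ * S * Real.log m ≤ S * r m := by
    have h9 : (K / β - γ * S) * Real.log m =
      K * (1 / β * Real.log m) - γ * S * Real.log m := by ring
    rw [h9] at hm4
    linarith
  have h9 : S * (γ * Real.log m) ≤ S * r m := by linarith
  exact le_of_mul_le_mul_left h9 hSpos

/-- general form: if `Good ε β` is finite, then `r` grows fast -/
theorem grow_of_fail {X Y : ℝ} (hXY : Wts X Y) (ε β : ℝ) (hε : 0 < ε) (hε' : ε < 1) (hβ : 0 < β)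
    (hβ1 : β ≤ 1) (hfail : ¬ (Good ε β).Infinite) (γ : ℝ)
    (hγ : γ * ((Real.log X + Real.log Y) * (β - ε * (1 - Real.log X / Real.log Y))) <
      1 - ε * (1 - Real.log X / Real.log Y)) :
    Grow γ := by
  have hstep := grow_step hXY ε β hε hε' hβ hβ1 hfail
  set LA := Real.log X with hLA
  set LB := Real.log Y with hLB
  have hA : 0 < LA := hXY.log_pos
  have hB : 0 < LB := hXY.log_pos'
  have hABle : LA ≤ LB := hXY.log_le
  have hc1 : 0 ≤ LB - LA ^ 2 / LB := by
    rw [sub_nonneg, div_le_iff₀ hB]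
    nlinarith
  rcases le_or_gt γ 0 with hγ0 | hγ0
  · exact grow_zero.mono hγ0
  set c0 : ℝ := 1 - ε * (1 - LA / LB) with hc0
  set c1 : ℝ := LB - LA ^ 2 / LB with hc1d
  have hlog2 : 0 < Real.log 2 := Real.log_pos (by norm_num)
  set S : Set ℝ := {β | Grow β} with hS
  have hbdd : BddAbove S := ⟨2 / Real.log 2, fun β hβ => by
    rw [le_div_iff₀ hlog2]; exact Grow.le hβ⟩
  have hne : S.Nonempty := ⟨0, grow_zero⟩
  set B := sSup S with hBd
  have hB0 : 0 ≤ B := le_csSup hbdd grow_zero
  have hden : 0 < β * (LA + LB) := by positivity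
  have hkey : ∀ b ∈ S, 0 ≤ b → c0 + b * (ε * c1) ≤ B * (β * (LA + LB)) := by
    intro b hb hb0
    rw [← div_le_iff₀ hden]
    by_contra hlt
    push Not at hlt
    set Z := (c0 + b * (ε * c1)) / (β * (LA + LB)) with hZ
    have hγ1 : (B + Z) / 2 < Z := by linarith
    have hγ2 : B < (B + Z) / 2 := by linarith
    have h3 : Grow ((B + Z) / 2) := hstep b hb0 hb ((B + Z) / 2) (by linarith)
      (by rw [← lt_div_iff₀ hden]; exact hγ1)
    have h4 : (B + Z) / 2 ≤ B := le_csSup hbdd h3
    linarith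
  -- pass to the supremum
  have hsup : c0 + B * (ε * c1) ≤ B * (β * (LA + LB)) := by
    have h0 := hkey 0 grow_zero le_rfl
    rw [zero_mul, add_zero] at h0
    rcases eq_or_lt_of_le (show 0 ≤ ε * c1 by positivity) with h1 | h1
    · rw [← h1, mul_zero, add_zero]; exact h0
    · have hB2 : B ≤ (B * (β * (LA + LB)) - c0) / (ε * c1) := by
        apply csSup_le hne
        intro b hb
        rw [le_div_iff₀ h1]
        rcases le_or_gt 0 b with hb0 | hb0
        · have := hkey b hb hb0
          linarith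
        · have h3 : b * (ε * c1) < 0 := mul_neg_of_neg_of_pos hb0 h1
          linarith
      rw [le_div_iff₀ h1] at hB2
      linarith
  have hc1' : ε * c1 = (LA + LB) * (ε * (1 - LA / LB)) := by
    rw [hc1d]
    field_simp
    ring
  have hfin : c0 ≤ B * ((LA + LB) * (β - ε * (1 - LA / LB))) := by
    rw [hc1'] at hsup
    linarith
  have hγB : γ < B := by
    by_contra hcon
    push Not at hcon
    rcases le_or_gt 0 ((LA + LB) * (β - ε * (1 - LA / LB))) with h1 | h1
    · have h2 : B * ((LA + LB) * (β - ε * (1 - LA / LB))) ≤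
        γ * ((LA + LB) * (β - ε * (1 - LA / LB))) := mul_le_mul_of_nonneg_right hcon h1
      linarith
    · have h2 : B * ((LA + LB) * (β - ε * (1 - LA / LB))) ≤ 0 :=
        mul_nonpos_of_nonneg_of_nonpos hB0 h1.le
      have h3 : 0 < c0 := by
        rw [hc0]
        have h4 : 0 < LA / LB := by positivity
        nlinarith
      linarith
  obtain ⟨b, hb, hbγ⟩ := exists_lt_of_lt_csSup hne hγB
  exact Grow.mono hb hbγ.le

end Pool.Agent.Helper95.RamDich
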