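import Mathlib
import Pool.Agent.Helper95.RamDich.Final2

open Finset Filter Topology

namespace Pool.Agent.Helper95.RamDich

open Pool.Agent.Helper78.Ramsey

lemma wts_of_theta {θ : ℝ} (h0 : 0 < θ) (h1 : θ ≤ 1 / 2) : Wts (1 / (1 - θ)) (1 / θ) := by
  have h2 : 0 < 1 - θ := by linarith
  refine ⟨?_, ?_, ?_⟩
  · rw [lt_div_iff₀ h2]; linarith
  · exact one_div_le_one_div_of_le h0 (by linarith)
  · field_simp
    ring

/-- exponential rate: `R(k,k) ≤ exp((ramRate ε θ + o(1)) k)` if Q1 fails at `ε` -/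
noncomputable def ramRate (ε θ : ℝ) : ℝ :=
  (Real.log (1 / (1 - θ)) + Real.log (1 / θ)) *
    (1 - ε - ε * (1 - Real.log (1 / (1 - θ)) / Real.log (1 / θ))) /
      (1 - ε * (1 - Real.log (1 / (1 - θ)) / Real.log (1 / θ)))

lemma ramRate_half (ε : ℝ) : ramRate ε (1 / 2) = (1 - ε) * Real.log 4 := by
  unfold ramRate
  have h2 : 0 < Real.log 2 := Real.log_pos (by norm_num)
  have h4 : Real.log 4 = 2 * Real.log 2 := by
    rw [show (4 : ℝ) = 2 ^ 2 by norm_num, Real.log_pow]; norm_num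
  have e1 : (1 : ℝ) / (1 - 1 / 2) = 2 := by norm_num
  have e2 : (1 : ℝ) / (1 / 2) = 2 := by norm_num
  rw [e1, e2, div_self h2.ne', h4]
  ring

theorem forces_of_fail (ε θ : ℝ) (hε : 0 < ε) (hε' : ε < 1 / 2) (hθ : 0 < θ) (hθ' : θ ≤ 1 / 2)
    (hfail : ¬ (Good ε (1 - ε)).Infinite) (δ : ℝ) (hδ : 0 < δ) :
    ∀ᶠ k : ℕ in atTop,
      Forces (⊤ : SimpleGraph (Fin ⌈Real.exp ((ramRate ε θ + δ) * k)⌉₊)) k := by
  have hw := wts_of_theta hθ hθ'
  have hA := hw.log_pos
  have hB := hw.log_pos'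
  have hABle := hw.log_le
  set A := Real.log (1 / (1 - θ)) with hAd
  set B := Real.log (1 / θ) with hBd
  set t := A / B with ht
  have ht0 : 0 < t := by positivity
  have ht1 : t ≤ 1 := (div_le_one hB).mpr hABle
  have hN : 0 < 1 - ε * (1 - t) := by nlinarith
  have hD : 0 < 1 - ε - ε * (1 - t) := by nlinarith
  have hκ : ramRate ε θ = (A + B) * (1 - ε - ε * (1 - t)) / (1 - ε * (1 - t)) := rfl
  have hκ0 : 0 < ramRate ε θ := by rw [hκ]; positivity
  set κ := ramRate ε θ with hκd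
  have hg : Grow (1 / (κ + δ)) := by
    apply grow_of_fail hw ε (1 - ε) hε (by linarith) (by linarith) (by linarith) hfail
    have h1 : (A + B) * (1 - ε - ε * (1 - t)) = κ * (1 - ε * (1 - t)) := by
      rw [hκ]; field_simp
    show 1 / (κ + δ) * ((A + B) * (1 - ε - ε * (1 - t))) < 1 - ε * (1 - t)
    rw [h1, one_div, inv_mul_eq_div, div_lt_iff₀ (by positivity)]
    nlinarith
  have htend : Tendsto (fun k : ℕ => ⌈Real.exp ((κ + δ) * k)⌉₊) atTop atTop := by
    apply tendsto_nat_ceil_atTop.comp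
    apply Real.tendsto_exp_atTop.comp
    exact Tendsto.const_mul_atTop (by positivity) tendsto_natCast_atTop_atTop
  filter_upwards [htend.eventually hg] with k hk
  refine Forces.mono (forces_r _) ?_
  have h1 : (κ + δ) * k ≤ Real.log (⌈Real.exp ((κ + δ) * k)⌉₊ : ℝ) := by
    rw [Real.le_log_iff_exp_le]
    · exact Nat.le_ceil _
    · exact lt_of_lt_of_le (Real.exp_pos _) (Nat.le_ceil _)
  have h2 : (k : ℝ) ≤ 1 / (κ + δ) * Real.log (⌈Real.exp ((κ + δ) * k)⌉₊ : ℝ) := by
    rw [one_div, inv_mul_eq_div, le_div_iff₀ (by positivity)]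
    linarith
  exact_mod_cast h2.trans hk

/-- unconditional consequence (Erdős' bound `r(2^j) ≤ 2j`) -/
theorem good_of_lt {X Y : ℝ} (hXY : Wts X Y) (ε β : ℝ) (hε : 0 < ε) (hε' : ε < 1) (hβ : 0 < β)
    (hβ1 : β ≤ 1)
    (h : 2 * ((Real.log X + Real.log Y) * (β - ε * (1 - Real.log X / Real.log Y))) <
      (1 - ε * (1 - Real.log X / Real.log Y)) * Real.log 2) : (Good ε β).Infinite := by
  by_contra hfail
  have hg := grow_of_fail hXY ε β hε hε' hβ hβ1 hfail
  set W := (Real.log X + Real.log Y) * (β - ε * (1 - Real.log X / Real.log Y)) with hW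
  set N := 1 - ε * (1 - Real.log X / Real.log Y) with hN
  have hlog2 : 0 < Real.log 2 := Real.log_pos (by norm_num)
  have h0 : 2 / Real.log 2 * W < N := by
    rw [div_mul_eq_mul_div, div_lt_iff₀ hlog2]
    linarith
  obtain ⟨γ, hγ1, hγ2⟩ : ∃ γ : ℝ, 2 / Real.log 2 < γ ∧ γ * W < N := by
    rcases le_or_gt W 0 with hW0 | hW0
    · refine ⟨2 / Real.log 2 + 1, by linarith, ?_⟩
      nlinarith
    · refine ⟨(2 / Real.log 2 + N / W) / 2, ?_, ?_⟩
      · have h1 : 2 / Real.log 2 < N / W := by rw [lt_div_iff₀ hW0]; exact h0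
        linarith
      · have h1 : 2 / Real.log 2 < N / W := by rw [lt_div_iff₀ hW0]; exact h0
        have h2 : (2 / Real.log 2 + N / W) / 2 < N / W := by linarith
        rwa [lt_div_iff₀ hW0] at h2
  have h3 := (hg γ hγ2).le
  rw [div_lt_iff₀ hlog2] at hγ1
  linarith

theorem good_explicit (ε : ℝ) (hε : 0 < ε) (hε' : ε < 1 / 2) :
    (Good ε (0.189 + 0.698 * ε)).Infinite := by
  have hw : Wts (5 / 4) 5 := ⟨by norm_num, by norm_num, by norm_num⟩
  apply good_of_lt hw ε _ hε (by linarith) (by linarith) (by linarith)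
  set a := Real.log 2 with ha
  set c := Real.log 5 with hc
  have ha0 : 0 < a := Real.log_pos (by norm_num)
  have hc0 : 0 < c := Real.log_pos (by norm_num)
  have hA : Real.log (5 / 4) = c - 2 * a := by
    rw [Real.log_div (by norm_num) (by norm_num), show (4 : ℝ) = 2 ^ 2 by norm_num, Real.log_pow]
    push_cast
    rfl
  have hup : 31 * c < 72 * a := by
    have h3 : Real.log ((5 : ℝ) ^ 31) < Real.log ((2 : ℝ) ^ 72) :=
      Real.log_lt_log (by positivity) (by norm_num)
    rw [Real.log_pow, Real.log_pow] at h3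
    exact_mod_cast h3
  have hlow : 2 * a < c := by
    have h3 : Real.log ((2 : ℝ) ^ 2) < Real.log 5 :=
      Real.log_lt_log (by positivity) (by norm_num)
    rw [Real.log_pow] at h3
    exact_mod_cast h3
  rw [hA]
  have hu : 1 - (c - 2 * a) / c = 2 * a / c := by field_simp; ring
  rw [hu]
  -- the inequality multiplied by c
  have hkey : 2 * ((c - 2 * a + c) * ((0.189 + 0.698 * ε) * c - ε * (2 * a))) <
      (c - ε * (2 * a)) * a := by
    have h0 : 0 < c * (a - 2 * (2 * c - 2 * a) * 0.189) := by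
      apply mul_pos hc0
      linarith
    have h1 : 0 < (c - a) * (a - 4 * (0.538 * c - a)) := by
      apply mul_pos (by linarith)
      linarith
    have h2 : (c - ε * (2 * a)) * a -
        2 * ((c - 2 * a + c) * ((0.189 + 0.698 * ε) * c - ε * (2 * a))) =
        (1 - 2 * ε) * (c * (a - 2 * (2 * c - 2 * a) * 0.189)) +
          2 * ε * ((c - a) * (a - 4 * (0.538 * c - a))) := by ring
    have h3 : 0 < (1 - 2 * ε) * (c * (a - 2 * (2 * c - 2 * a) * 0.189)) :=
      mul_pos (by linarith) h0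
    have h4 : 0 < 2 * ε * ((c - a) * (a - 4 * (0.538 * c - a))) := mul_pos (by linarith) h1
    linarith
  have e1 : 2 * ((c - 2 * a + c) * (0.189 + 0.698 * ε - ε * (2 * a / c))) =
      2 * ((c - 2 * a + c) * ((0.189 + 0.698 * ε) * c - ε * (2 * a))) / c := by
    field_simp
  have e2 : (1 - ε * (2 * a / c)) * a = (c - ε * (2 * a)) * a / c := by
    field_simp
  rw [e1, e2]
  exact div_lt_div_of_pos_right hkey hc0

end Pool.Agent.Helper95.RamDich
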